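import Mathlib

/-!
Covers of topological spaces and selection principles.
-/

set_option autoImplicit false

namespace Pool.Agent.TH565.Grp

open Set

/-- The open `ω`-covers of `X`: families of open sets with union `X`, not containing `X`, such that
every finite subset of `X` is contained in a member. -/
def OmegaCovers (X : Type*) [TopologicalSpace X] : Set (Set (Set X)) :=
  {𝒰 | (∀ U ∈ 𝒰, IsOpen U) ∧ ⋃₀ 𝒰 = univ ∧ univ ∉ 𝒰 ∧ ∀ F : Set X, F.Finite → ∃ U ∈ 𝒰, F ⊆ U}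

/-- The `ω`-groupable open covers of `X`: those open covers `𝒰` which can be partitioned into
pairwise disjoint finite sets `𝒢 n` such that every finite subset of `X` is contained in the union
of some `𝒢 n`. -/
def OmegaGroupable (X : Type*) [TopologicalSpace X] : Set (Set (Set X)) :=
  {𝒰 | (∀ U ∈ 𝒰, IsOpen U) ∧ ⋃₀ 𝒰 = univ ∧ ∃ 𝒢 : ℕ → Set (Set X), (∀ n, (𝒢 n).Finite) ∧
    (∀ i j, i ≠ j → Disjoint (𝒢 i) (𝒢 j)) ∧ (⋃ n, 𝒢 n) = 𝒰 ∧
    ∀ F : Set X, F.Finite → ∃ n, F ⊆ ⋃₀ 𝒢 n}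

/-- The selection principle `S_1(𝒜, ℬ)`. -/
def S1 {X : Type*} (𝒜 ℬ : Set (Set (Set X))) : Prop :=
  ∀ 𝒰 : ℕ → Set (Set X), (∀ n, 𝒰 n ∈ 𝒜) → ∃ U : ℕ → Set X, (∀ n, U n ∈ 𝒰 n) ∧ range U ∈ ℬ

/-- The selection principle `S_fin(𝒜, ℬ)`. -/
def Sfin {X : Type*} (𝒜 ℬ : Set (Set (Set X))) : Prop :=
  ∀ 𝒰 : ℕ → Set (Set X), (∀ n, 𝒰 n ∈ 𝒜) →
    ∃ ℱ : ℕ → Set (Set X), (∀ n, ℱ n ⊆ 𝒰 n ∧ (ℱ n).Finite) ∧ (⋃ n, ℱ n) ∈ ℬ

/-- The open covers of `X`. -/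
def OpenCovers (X : Type*) [TopologicalSpace X] : Set (Set (Set X)) :=
  {𝒰 | (∀ U ∈ 𝒰, IsOpen U) ∧ ⋃₀ 𝒰 = univ}

/-- Transport of families of sets along a homeomorphism. -/
theorem mem_omegaCovers_preimage {X Y : Type*} [TopologicalSpace X] [TopologicalSpace Y]
    (e : X ≃ₜ Y) {𝒰 : Set (Set Y)} (h : 𝒰 ∈ OmegaCovers Y) :
    (fun U => e ⁻¹' U) '' 𝒰 ∈ OmegaCovers X := by
  obtain ⟨h1, h2, h3, h4⟩ := h
  refine ⟨?_, ?_, ?_, ?_⟩
  · rintro _ ⟨U, hU, rfl⟩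
    exact (h1 U hU).preimage e.continuous
  · rw [eq_univ_iff_forall]
    intro x
    have : e x ∈ ⋃₀ 𝒰 := by rw [h2]; trivial
    obtain ⟨U, hU, hx⟩ := this
    exact ⟨_, ⟨U, hU, rfl⟩, hx⟩
  · rintro ⟨U, hU, h⟩
    apply h3
    have : U = univ := by
      rw [eq_univ_iff_forall]
      intro y
      have h5 : e.symm y ∈ e ⁻¹' U := by
        have h6 : e ⁻¹' U = univ := h
        rw [h6]; trivial
      simpa using h5
    rwa [← this]
  · intro F hF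
    obtain ⟨U, hU, hFU⟩ := h4 (e '' F) (hF.image e)
    exact ⟨_, ⟨U, hU, rfl⟩, fun x hx => hFU ⟨x, hx, rfl⟩⟩

theorem mem_omegaCovers_of_preimage {X Y : Type*} [TopologicalSpace X] [TopologicalSpace Y]
    (e : X ≃ₜ Y) {𝒰 : Set (Set Y)} (h : (fun U => e ⁻¹' U) '' 𝒰 ∈ OmegaCovers X) :
    𝒰 ∈ OmegaCovers Y := by
  have h1 := mem_omegaCovers_preimage e.symm h
  have h2 : (fun U => e.symm ⁻¹' U) '' ((fun U => e ⁻¹' U) '' 𝒰) = 𝒰 := by
    rw [image_image]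
    have : (fun U : Set Y => e.symm ⁻¹' (e ⁻¹' U)) = id := by
      funext U
      ext y
      simp
    rw [this, image_id]
  rwa [h2] at h1

theorem mem_groupable_preimage {X Y : Type*} [TopologicalSpace X] [TopologicalSpace Y]
    (e : X ≃ₜ Y) {𝒰 : Set (Set Y)} (h : 𝒰 ∈ OmegaGroupable Y) :
    (fun U => e ⁻¹' U) '' 𝒰 ∈ OmegaGroupable X := by
  obtain ⟨h1, h2, 𝒢, h3, h4, h5, h6⟩ := h
  have hinj : Function.Injective (fun U : Set Y => e ⁻¹' U) := e.surjective.preimage_injective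
  refine ⟨?_, ?_, fun n => (fun U => e ⁻¹' U) '' 𝒢 n, fun n => (h3 n).image _, fun i j hij =>
    (disjoint_image_iff hinj).2 (h4 i j hij), ?_, fun F hF => ?_⟩
  · rintro _ ⟨U, hU, rfl⟩
    exact (h1 U hU).preimage e.continuous
  · rw [eq_univ_iff_forall]
    intro x
    have : e x ∈ ⋃₀ 𝒰 := by rw [h2]; trivial
    obtain ⟨U, hU, hx⟩ := this
    exact ⟨_, ⟨U, hU, rfl⟩, hx⟩
  · rw [← h5, image_iUnion]
  · obtain ⟨n, hn⟩ := h6 (e '' F) (hF.image e)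
    refine ⟨n, fun x hx => ?_⟩
    obtain ⟨U, hU, hxU⟩ := hn ⟨x, hx, rfl⟩
    exact ⟨_, ⟨U, hU, rfl⟩, hxU⟩

theorem mem_groupable_of_preimage {X Y : Type*} [TopologicalSpace X] [TopologicalSpace Y]
    (e : X ≃ₜ Y) {𝒰 : Set (Set Y)} (h : (fun U => e ⁻¹' U) '' 𝒰 ∈ OmegaGroupable X) :
    𝒰 ∈ OmegaGroupable Y := by
  have h1 := mem_groupable_preimage e.symm h
  have h2 : (fun U => e.symm ⁻¹' U) '' ((fun U => e ⁻¹' U) '' 𝒰) = 𝒰 := by
    rw [image_image]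
    have : (fun U : Set Y => e.symm ⁻¹' (e ⁻¹' U)) = id := by
      funext U
      ext y
      simp
    rw [this, image_id]
  rwa [h2] at h1

/-- `S_1(Ω, O^{ω-gp})` is a topological property. -/
theorem s1_groupable_homeo {X Y : Type*} [TopologicalSpace X] [TopologicalSpace Y]
    (e : X ≃ₜ Y) (h : S1 (OmegaCovers X) (OmegaGroupable X)) :
    S1 (OmegaCovers Y) (OmegaGroupable Y) := by
  intro 𝒰 h𝒰
  obtain ⟨U, hU1, hU2⟩ := h (fun n => (fun U => e ⁻¹' U) '' 𝒰 n) fun n =>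
    mem_omegaCovers_preimage e (h𝒰 n)
  choose V hV1 hV2 using hU1
  refine ⟨V, hV1, mem_groupable_of_preimage e ?_⟩
  have : (fun U => e ⁻¹' U) '' range V = range U := by
    rw [← range_comp]
    congr 1
    funext n
    exact hV2 n
  rwa [this]

/-- `S_fin(Ω, Ω)` is a topological property. -/
theorem sfin_omega_homeo {X Y : Type*} [TopologicalSpace X] [TopologicalSpace Y]
    (e : X ≃ₜ Y) (h : Sfin (OmegaCovers X) (OmegaCovers X)) :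
    Sfin (OmegaCovers Y) (OmegaCovers Y) := by
  intro 𝒰 h𝒰
  obtain ⟨ℱ, h1, h2⟩ := h (fun n => (fun U => e ⁻¹' U) '' 𝒰 n) fun n =>
    mem_omegaCovers_preimage e (h𝒰 n)
  have hinj : Function.Injective (fun U : Set Y => e ⁻¹' U) := e.surjective.preimage_injective
  refine ⟨fun n => (fun U => e ⁻¹' U) ⁻¹' ℱ n, fun n => ⟨?_, ?_⟩, ?_⟩
  · intro U hU
    obtain ⟨V, hV, hVU⟩ := (h1 n).1 hU
    have : V = U := hinj hVU
    rwa [← this]
  · exact (h1 n).2.preimage hinj.injOn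
  · apply mem_omegaCovers_of_preimage e
    have : (fun U => e ⁻¹' U) '' (⋃ n, (fun U => e ⁻¹' U) ⁻¹' ℱ n) = ⋃ n, ℱ n := by
      rw [image_iUnion]
      congr 1
      funext n
      rw [image_preimage_eq_iff]
      intro W hW
      obtain ⟨V, -, hV⟩ := (h1 n).1 hW
      exact ⟨V, hV⟩
    rwa [this]

/-- The Menger property is a topological property. -/
theorem menger_homeo {X Y : Type*} [TopologicalSpace X] [TopologicalSpace Y]
    (e : X ≃ₜ Y) (h : Sfin (OpenCovers X) (OpenCovers X)) :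
    Sfin (OpenCovers Y) (OpenCovers Y) := by
  intro 𝒰 h𝒰
  have hinj : Function.Injective (fun U : Set Y => e ⁻¹' U) := e.surjective.preimage_injective
  obtain ⟨ℱ, h1, h2⟩ := h (fun n => (fun U => e ⁻¹' U) '' 𝒰 n) fun n => by
    refine ⟨?_, ?_⟩
    · rintro _ ⟨U, hU, rfl⟩
      exact ((h𝒰 n).1 U hU).preimage e.continuous
    · rw [eq_univ_iff_forall]
      intro x
      have : e x ∈ ⋃₀ 𝒰 n := by rw [(h𝒰 n).2]; trivial
      obtain ⟨U, hU, hx⟩ := this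
      exact ⟨_, ⟨U, hU, rfl⟩, hx⟩
  refine ⟨fun n => (fun U => e ⁻¹' U) ⁻¹' ℱ n, fun n => ⟨?_, ?_⟩, ?_, ?_⟩
  · intro U hU
    obtain ⟨V, hV, hVU⟩ := (h1 n).1 hU
    have : V = U := hinj hVU
    rwa [← this]
  · exact (h1 n).2.preimage hinj.injOn
  · intro U hU
    obtain ⟨n, hn⟩ := mem_iUnion.1 hU
    obtain ⟨V, hV, hVU⟩ := (h1 n).1 hn
    have : V = U := hinj hVU
    rw [← this]
    exact (h𝒰 n).1 V hV
  · rw [eq_univ_iff_forall]
    intro y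
    have : e.symm y ∈ ⋃₀ ⋃ n, ℱ n := by rw [h2.2]; trivial
    obtain ⟨W, hW, hyW⟩ := this
    obtain ⟨n, hn⟩ := mem_iUnion.1 hW
    obtain ⟨V, hV, rfl⟩ := (h1 n).1 hn
    refine ⟨V, mem_iUnion.2 ⟨n, hn⟩, ?_⟩
    simpa using hyW

/-- Countable `ω`-subcovers. -/
theorem countable_sub {X : Type*} [TopologicalSpace X] [SecondCountableTopology X]
    {𝒰 : Set (Set X)} (h : 𝒰 ∈ OmegaCovers X) :
    ∃ u : ℕ → Set X, (∀ i, u i ∈ 𝒰) ∧ ∀ F : Set X, F.Finite → ∃ i, F ⊆ u i := by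
  classical
  obtain ⟨h1, -, -, h4⟩ := h
  let ℬ := TopologicalSpace.countableBasis X
  have hℬc : Countable ℬ := (TopologicalSpace.countable_countableBasis X).to_subtype
  have hℬ := TopologicalSpace.isBasis_countableBasis X
  obtain ⟨U0, hU0, -⟩ := h4 ∅ finite_empty
  have h2 : ∀ T : Finset ℬ, ∃ U ∈ 𝒰, (∃ U' ∈ 𝒰, (⋃ B ∈ T, (B : Set X)) ⊆ U') →
      (⋃ B ∈ T, (B : Set X)) ⊆ U := by
    intro T
    by_cases h : ∃ U' ∈ 𝒰, (⋃ B ∈ T, (B : Set X)) ⊆ U'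
    · obtain ⟨U', hU', h3⟩ := h
      exact ⟨U', hU', fun _ => h3⟩
    · exact ⟨U0, hU0, fun h' => absurd h' h⟩
  choose U hU1 hU2 using h2
  obtain ⟨g, hg⟩ := exists_surjective_nat (Finset ℬ)
  refine ⟨fun i => U (g i), fun i => hU1 _, fun F hF => ?_⟩
  obtain ⟨U', hU', hFU⟩ := h4 F hF
  have h3 : ∀ x : X, ∃ B : ℬ, x ∈ U' → x ∈ (B : Set X) ∧ (B : Set X) ⊆ U' := by
    intro x
    by_cases hx : x ∈ U'
    · obtain ⟨B, hB, hxB, hBU⟩ := hℬ.exists_subset_of_mem_open hx (h1 U' hU')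
      exact ⟨⟨B, hB⟩, fun _ => ⟨hxB, hBU⟩⟩
    · obtain ⟨B, hB, -, -⟩ := hℬ.exists_subset_of_mem_open (mem_univ x) isOpen_univ
      exact ⟨⟨B, hB⟩, fun h => absurd h hx⟩
  choose B hB using h3
  obtain ⟨i, hi⟩ := hg (hF.toFinset.image B)
  refine ⟨i, ?_⟩
  show F ⊆ U (g i)
  rw [hi]
  have h5 : (⋃ B' ∈ hF.toFinset.image B, (B' : Set X)) ⊆ U' := by
    refine iUnion₂_subset fun B' hB' => ?_
    obtain ⟨x, hx, rfl⟩ := Finset.mem_image.1 hB'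
    exact (hB x (hFU (hF.mem_toFinset.1 hx))).2
  intro x hx
  refine hU2 _ ⟨U', hU', h5⟩ ?_
  exact mem_iUnion₂.2 ⟨B x, Finset.mem_image_of_mem _ (hF.mem_toFinset.2 hx), (hB x (hFU hx)).1⟩

end Pool.Agent.TH565.Grp
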