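import Pool.Agent.H381R3.LPDMain

/-!
A family of pairs of points of the Cantor space and of functions, indexed by a regular cardinal
`κ = cov(M) = 𝔡`, each generic over its predecessors.
-/

set_option autoImplicit false

namespace Pool.Agent.TH565.Grp

open Set Filter Topology Pool.Agent.H752R3 Pool.Agent.H381R3.LP
open scoped Cardinal

/-- The first point coded by `z`. -/
def px (z : ℕ → Bool) : ℕ → Bool := fun k => z (2 * k)

/-- The second point coded by `z`: it has no common one with the first point at the positions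
`pair n m` with `m < h n`. -/
def py (h : ℕ → ℕ) (z : ℕ → Bool) : ℕ → Bool := fun k =>
  z (2 * k + 1) && !(z (2 * k) && decide ((Nat.unpair k).2 < h (Nat.unpair k).1))

/-- The point `p` followed by ones. -/
def dpt (p : List Bool) : ℕ → Bool := fun i => p.getD i true

/-- A bound for the lengths of the lists used at `n`. -/
noncomputable def bd (μ : List Bool → ℕ → ℕ) (n : ℕ) : ℕ :=
  sSup ((fun p => max (μ p n) p.length) '' {p : List Bool | p.length ≤ n})

theorem le_bd (μ : List Bool → ℕ → ℕ) (n : ℕ) (p : List Bool) (hp : p.length ≤ n) :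
    max (μ p n) p.length ≤ bd μ n := by
  apply le_csSup
  · exact ((List.finite_length_le Bool n).image _).bddAbove
  · exact ⟨p, hp, rfl⟩

/-- The points which agree up to `μ p n` with `dpt p`, for one of the lists `p` used at `n`. -/
def NearP (μ : List Bool → ℕ → ℕ) (n : ℕ) : Set (ℕ → Bool) :=
  {x | ∃ p : List Bool, p.length ≤ bd μ n ∧ ∀ t < μ p n, x t = dpt p t}

theorem isOpen_NearP (μ : List Bool → ℕ → ℕ) (n : ℕ) : IsOpen (NearP μ n) := by
  have : NearP μ n = ⋃ p ∈ {p : List Bool | p.length ≤ bd μ n},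
      {y : ℕ → Bool | ∀ t < μ p n, y t = dpt p t} := by
    ext y; simp [NearP]
  rw [this]
  exact isOpen_biUnion fun i _ => isOpen_agree _ _

theorem continuous_px : Continuous px := continuous_pi fun _ => continuous_apply _

theorem continuous_py (h : ℕ → ℕ) : Continuous (py h) := by
  apply continuous_pi
  intro k
  have h1 : Continuous fun z : ℕ → Bool => (z (2 * k), z (2 * k + 1)) :=
    (continuous_apply _).prodMk (continuous_apply _)
  exact (continuous_of_discreteTopology (f := fun q : Bool × Bool =>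
    q.2 && !(q.1 && decide ((Nat.unpair k).2 < h (Nat.unpair k).1)))).comp h1

/-- The basic density argument. -/
theorem dense_step (μ : List Bool → ℕ → ℕ) (h : ℕ → ℕ) (w : ℕ → Bool) (l n : ℕ) (hln : l ≤ n) :
    ∃ z : ℕ → Bool, (∀ i < 2 * l, z i = w i) ∧ px z ∈ NearP μ n ∧ py h z ∈ NearP μ n := by
  let p : List Bool := List.ofFn fun i : Fin l => w (2 * i)
  have hpl : p.length = l := by simp [p]
  let N : ℕ := max l (μ p n)
  have hN : N ≤ bd μ n := by
    have := le_bd μ n p (by omega)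
    rw [hpl] at this
    omega
  let z : ℕ → Bool := fun i => if i < 2 * l then w i else
    if i % 2 = 0 then decide (i / 2 < N) else decide (N ≤ i / 2)
  have hz1 : ∀ k < l, z (2 * k) = w (2 * k) := by
    intro k hk
    have : 2 * k < 2 * l := by omega
    simp [z, this]
  have hz2 : ∀ k < l, z (2 * k + 1) = w (2 * k + 1) := by
    intro k hk
    have : 2 * k + 1 < 2 * l := by omega
    simp [z, this]
  have hz3 : ∀ k, l ≤ k → z (2 * k) = decide (k < N) := by
    intro k hk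
    have h1 : ¬ (2 * k < 2 * l) := by omega
    have h2 : 2 * k % 2 = 0 := by omega
    have h3 : 2 * k / 2 = k := by omega
    simp only [z, h1, h2, h3, if_true, if_false]
  have hz4 : ∀ k, l ≤ k → z (2 * k + 1) = decide (N ≤ k) := by
    intro k hk
    have h1 : ¬ (2 * k + 1 < 2 * l) := by omega
    have h2 : (2 * k + 1) % 2 ≠ 0 := by omega
    have h3 : (2 * k + 1) / 2 = k := by omega
    simp only [z, h1, h2, h3, if_false]
  refine ⟨z, fun i hi => by simp [z, hi], ?_, ?_⟩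
  · refine ⟨p, by omega, fun t ht => ?_⟩
    rcases lt_or_ge t l with h1 | h1
    · simp only [px, hz1 t h1, dpt]
      simp [p, List.getD_eq_getElem?_getD, h1]
    · have h2 : t < N := lt_of_lt_of_le ht (le_max_right _ _)
      simp only [px, hz3 t h1, dpt, h2]
      simp [p, List.getD_eq_getElem?_getD, h1]
  · let q : List Bool := List.ofFn fun i : Fin N => py h z i
    refine ⟨q, by simp only [q, List.length_ofFn]; exact hN, fun t _ => ?_⟩
    rcases lt_or_ge t N with h1 | h1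
    · simp [q, dpt, List.getD_eq_getElem?_getD, h1]
    · have h3 : l ≤ t := (le_max_left _ _).trans h1
      have h4 : ¬ (t < N) := not_lt.2 h1
      simp only [py, hz3 t h3, hz4 t h3, dpt, h4, h1]
      simp [q, List.getD_eq_getElem?_getD, h1]

section family

variable {κ : Cardinal.{0}}

/-- The set of indices at which the recorded points are near and the recorded functions are
large. -/
def TrP (μ : KO κ → List Bool → ℕ → ℕ) (Y : KO κ → (ℕ → Bool) × (ℕ → ℕ)) (c : KO κ)
    (A : Finset (KO κ)) (S : Finset (KO κ × KO κ)) : Set ℕ :=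
  {n | (∀ a ∈ A, px (Y a).1 ∈ NearP (μ c) n ∧ py (μ a []) (Y a).1 ∈ NearP (μ c) n) ∧
    ∀ p ∈ S, μ p.2 [] n ≤ (Y p.1).2 n}

/-- The relation of the stage `β` to its past. -/
structure Stage (μ : KO κ → List Bool → ℕ → ℕ) (β : KO κ)
    (prev : KO κ → (ℕ → Bool) × (ℕ → ℕ)) (y : (ℕ → Bool) × (ℕ → ℕ)) : Prop where
  tr : ∀ c ≤ β, ∀ A : Finset (KO κ), (∀ a ∈ A, a < β) → ∀ S : Finset (KO κ × KO κ),
    (∀ p ∈ S, p.1 < β ∧ p.2 < β) → (TrP μ prev c A S).Infinite →
      ∀ F : Finset (KO κ), (∀ a ∈ F, a ≤ β) →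
        {n | n ∈ TrP μ prev c A S ∧ (px y.1 ∈ NearP (μ c) n ∧ py (μ β []) y.1 ∈ NearP (μ c) n) ∧
          ∀ a ∈ F, μ a [] n ≤ y.2 n}.Infinite
  common : ∀ n k, ∃ m, k ≤ m ∧ px y.1 (Nat.pair n m) = true ∧ py (μ β []) y.1 (Nat.pair n m) = true
  xx : ∀ a < β, ∀ n, (∀ k, ∃ m, k ≤ m ∧ px (prev a).1 (Nat.pair n m) = true) →
    ∃ m, px y.1 (Nat.pair n m) = true ∧ px (prev a).1 (Nat.pair n m) = true
  xy : ∀ a < β, ∀ n, (∀ k, ∃ m, k ≤ m ∧ py (μ a []) (prev a).1 (Nat.pair n m) = true) →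
    ∃ m, px y.1 (Nat.pair n m) = true ∧ py (μ a []) (prev a).1 (Nat.pair n m) = true
  yx : ∀ a < β, ∀ n, (∀ k, ∃ m, k ≤ m ∧ px (prev a).1 (Nat.pair n m) = true) →
    ∃ m, py (μ β []) y.1 (Nat.pair n m) = true ∧ px (prev a).1 (Nat.pair n m) = true
  yy : ∀ a < β, ∀ n, (∀ k, ∃ m, k ≤ m ∧ py (μ a []) (prev a).1 (Nat.pair n m) = true) →
    ∃ m, py (μ β []) y.1 (Nat.pair n m) = true ∧ py (μ a []) (prev a).1 (Nat.pair n m) = true

theorem TrP_congr (μ : KO κ → List Bool → ℕ → ℕ) {β : KO κ}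
    {prev prev' : KO κ → (ℕ → Bool) × (ℕ → ℕ)} (hpp : ∀ b < β, prev b = prev' b) (c : KO κ)
    {A : Finset (KO κ)} (hA : ∀ a ∈ A, a < β) {S : Finset (KO κ × KO κ)}
    (hS : ∀ p ∈ S, p.1 < β ∧ p.2 < β) : TrP μ prev' c A S = TrP μ prev c A S := by
  ext n
  constructor
  · rintro ⟨h1, h2⟩
    refine ⟨fun a ha => ?_, fun p hp => ?_⟩
    · rw [hpp a (hA a ha)]; exact h1 a ha
    · rw [hpp p.1 (hS p hp).1]; exact h2 p hp
  · rintro ⟨h1, h2⟩
    refine ⟨fun a ha => ?_, fun p hp => ?_⟩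
    · rw [← hpp a (hA a ha)]; exact h1 a ha
    · rw [← hpp p.1 (hS p hp).1]; exact h2 p hp

theorem dense_of_ext {O : Set (ℕ → Bool)}
    (h : ∀ (w : ℕ → Bool) (l : ℕ), ∃ z ∈ O, ∀ i < 2 * l, z i = w i) : Dense O := by
  rw [dense_iff_inter_open]
  rintro U hU ⟨x, hx⟩
  rw [isOpen_pi_iff] at hU
  obtain ⟨I, u, hu, hsub⟩ := hU x hx
  obtain ⟨z, hz, hzx⟩ := h x (I.sup id + 1)
  refine ⟨z, hsub fun i hi => ?_, hz⟩
  have h1 : i ≤ I.sup id := Finset.le_sup (f := id) hi
  rw [hzx i (by omega)]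
  exact (hu i hi).2

/-- Positions with both coordinates free. -/
theorem exists_pos (s : ℕ → Bool) (n : ℕ) (h : ℕ → ℕ)
    (hs : ∀ k, ∃ m, k ≤ m ∧ s (Nat.pair n m) = true) (w : ℕ → Bool) (l : ℕ) :
    ∃ z : ℕ → Bool, (∀ i < 2 * l, z i = w i) ∧ ∃ m, px z (Nat.pair n m) = true ∧
      py h z (Nat.pair n m) = true ∧ s (Nat.pair n m) = true ∧ l ≤ m := by
  obtain ⟨m, hm, hsm⟩ := hs (max l (h n))
  have h1 : l ≤ m := (le_max_left _ _).trans hm
  have h2 : h n ≤ m := (le_max_right _ _).trans hm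
  have h3 : m ≤ Nat.pair n m := Nat.right_le_pair n m
  refine ⟨fun i => if i < 2 * l then w i else true, fun i hi => by simp [hi], m, ?_, ?_, hsm, h1⟩
  · have : ¬ (2 * Nat.pair n m < 2 * l) := by omega
    simp only [px, this, if_false]
  · have h4 : ¬ (2 * Nat.pair n m + 1 < 2 * l) := by omega
    have h5 : ¬ (2 * Nat.pair n m < 2 * l) := by omega
    simp [py, h4, h5, h2]

theorem stage_aux {κ : Cardinal.{0}} (h0 : ℵ₀ < κ) (β : KO κ) :
    #((Set.Iic β × {A : Finset (KO κ) // ∀ a ∈ A, a ∈ Set.Iio β}) ×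
      {S : Finset (KO κ × KO κ) // ∀ p ∈ S, p ∈ Set.Iio β ×ˢ Set.Iio β}) < κ := by
  have h1 : #(Set.Iio β ×ˢ Set.Iio β : Set (KO κ × KO κ)) < κ := by
    rw [Cardinal.mk_setProd]
    exact Cardinal.mul_lt_of_lt h0.le (mk_Iio_KO β) (mk_Iio_KO β)
  rw [Cardinal.mk_prod, Cardinal.lift_id, Cardinal.lift_id]
  refine Cardinal.mul_lt_of_lt h0.le ?_ (finset_sub_lt h0 _ h1)
  rw [Cardinal.mk_prod, Cardinal.lift_id, Cardinal.lift_id]
  exact Cardinal.mul_lt_of_lt h0.le (mk_Iic_KO h0 β) (finset_sub_lt h0 _ (mk_Iio_KO β))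

theorem exists_stage (h0 : ℵ₀ < κ) (hcov : CovK κ) (μ : KO κ → List Bool → ℕ → ℕ) (β : KO κ)
    (prev : KO κ → (ℕ → Bool) × (ℕ → ℕ)) : ∃ y, Stage μ β prev y := by
  classical
  let I : Type := (Set.Iic β × {A : Finset (KO κ) // ∀ a ∈ A, a ∈ Set.Iio β}) ×
      {S : Finset (KO κ × KO κ) // ∀ p ∈ S, p ∈ Set.Iio β ×ˢ Set.Iio β}
  have hI : #I < κ := stage_aux h0 β
  let T : I → Set ℕ := fun i => TrP μ prev i.1.1.1 i.1.2.1 i.2.1
  let J : Type := Option (Set.Iio β × Bool)
  have hJ : #J < κ := by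
    rw [Cardinal.mk_option]
    refine Cardinal.add_lt_of_lt h0.le ?_ (Cardinal.one_lt_aleph0.trans h0)
    rw [Cardinal.mk_prod, Cardinal.lift_id, Cardinal.lift_id]
    refine Cardinal.mul_lt_of_lt h0.le (mk_Iio_KO β) ?_
    exact (Cardinal.lt_aleph0_of_finite Bool).trans h0
  let s : J → ℕ → Bool := fun j => match j with
    | none => fun _ => true
    | some (a, true) => px (prev a).1
    | some (a, false) => py (μ a []) (prev a).1
  -- the dense open sets
  let O : (I × ℕ) ⊕ (J × ℕ × ℕ) → Set (ℕ → Bool) := fun o => match o with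
    | Sum.inl q => {z | (T q.1).Infinite → ∃ n, (q.2 ≤ n ∧ n ∈ T q.1) ∧
        px z ∈ NearP (μ q.1.1.1.1) n ∧ py (μ β []) z ∈ NearP (μ q.1.1.1.1) n}
    | Sum.inr q => {z | (∀ k, ∃ m, k ≤ m ∧ s q.1 (Nat.pair q.2.1 m) = true) →
        ∃ m, q.2.2 ≤ m ∧ px z (Nat.pair q.2.1 m) = true ∧
          py (μ β []) z (Nat.pair q.2.1 m) = true ∧ s q.1 (Nat.pair q.2.1 m) = true}
  have hOo : ∀ o, IsOpen (O o) := by
    rintro (q | q)
    · by_cases h : (T q.1).Infinite
      · have : O (Sum.inl q) = ⋃ n, ⋃ (_ : q.2 ≤ n ∧ n ∈ T q.1),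
            (px ⁻¹' NearP (μ q.1.1.1.1) n ∩ py (μ β []) ⁻¹' NearP (μ q.1.1.1.1) n) := by
          ext z
          simp only [O, mem_ofPred_eq, mem_iUnion, mem_inter_iff, mem_preimage]
          constructor
          · intro hz
            obtain ⟨n, h1, h2⟩ := hz h
            exact ⟨n, h1, h2⟩
          · rintro ⟨n, h1, h2⟩ -
            exact ⟨n, h1, h2⟩
        rw [this]
        exact isOpen_iUnion fun n => isOpen_iUnion fun _ =>
          ((isOpen_NearP _ _).preimage continuous_px).inter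
            ((isOpen_NearP _ _).preimage (continuous_py _))
      · have : O (Sum.inl q) = Set.univ := by
          rw [eq_univ_iff_forall]
          intro y h'
          exact absurd h' h
        rw [this]
        exact isOpen_univ
    · by_cases h : ∀ k, ∃ m, k ≤ m ∧ s q.1 (Nat.pair q.2.1 m) = true
      · have : O (Sum.inr q) = ⋃ m, ⋃ (_ : q.2.2 ≤ m ∧ s q.1 (Nat.pair q.2.1 m) = true),
            ({z | px z (Nat.pair q.2.1 m) = true} ∩
              {z | py (μ β []) z (Nat.pair q.2.1 m) = true}) := by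
          ext z
          simp only [O, mem_ofPred_eq, mem_iUnion, mem_inter_iff]
          constructor
          · intro hz
            obtain ⟨m, h1, h2, h3, h4⟩ := hz h
            exact ⟨m, ⟨h1, h4⟩, h2, h3⟩
          · rintro ⟨m, ⟨h1, h4⟩, h2, h3⟩ -
            exact ⟨m, h1, h2, h3, h4⟩
        rw [this]
        refine isOpen_iUnion fun m => isOpen_iUnion fun _ => IsOpen.inter ?_ ?_
        · exact (isOpen_discrete ({true} : Set Bool)).preimage
            ((continuous_apply (Nat.pair q.2.1 m)).comp continuous_px)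
        · exact (isOpen_discrete ({true} : Set Bool)).preimage
            ((continuous_apply (Nat.pair q.2.1 m)).comp (continuous_py _))
      · have : O (Sum.inr q) = Set.univ := by
          rw [eq_univ_iff_forall]
          intro y h'
          exact absurd h' h
        rw [this]
        exact isOpen_univ
  have hOd : ∀ o, Dense (O o) := by
    rintro (q | q)
    · apply dense_of_ext
      intro w l
      by_cases h : (T q.1).Infinite
      · obtain ⟨n, hn1, hn2⟩ := h.exists_gt (max q.2 l)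
        have h3 := le_max_left q.2 l
        have h4 := le_max_right q.2 l
        obtain ⟨z, hz1, hz2, hz3⟩ := dense_step (μ q.1.1.1.1) (μ β []) w l n (by omega)
        exact ⟨z, fun _ => ⟨n, ⟨by omega, hn1⟩, hz2, hz3⟩, hz1⟩
      · exact ⟨w, fun h' => absurd h' h, fun _ _ => rfl⟩
    · apply dense_of_ext
      intro w l
      by_cases h : ∀ k, ∃ m, k ≤ m ∧ s q.1 (Nat.pair q.2.1 m) = true
      · obtain ⟨z, hz1, m, hz2, hz3, hz4, hz5⟩ :=
          exists_pos (s q.1) q.2.1 (μ β []) h w (max l q.2.2)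
        exact ⟨z, fun _ => ⟨m, (le_max_right _ _).trans hz5, hz2, hz3, hz4⟩,
          fun i hi => hz1 i (by have := le_max_left l q.2.2; omega)⟩
      · exact ⟨w, fun h' => absurd h' h, fun _ _ => rfl⟩
  have hcard : #((I × ℕ) ⊕ (J × ℕ × ℕ)) < κ := by
    rw [Cardinal.mk_sum, Cardinal.lift_id, Cardinal.lift_id]
    refine Cardinal.add_lt_of_lt h0.le ?_ ?_
    · rw [Cardinal.mk_prod, Cardinal.lift_id, Cardinal.lift_id]
      exact Cardinal.mul_lt_of_lt h0.le hI (by simpa using h0)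
    · rw [Cardinal.mk_prod, Cardinal.lift_id, Cardinal.lift_id]
      exact Cardinal.mul_lt_of_lt h0.le hJ (by simpa using h0)
  obtain ⟨z, hz⟩ := (ne_univ_iff_exists_notMem _).1
    (hcov _ (fun o => (O o)ᶜ) hcard fun o => isMeagre_compl_of_open_dense (hOo o) (hOd o))
  have hzO : ∀ o, z ∈ O o := fun o => by
    by_contra hcon
    exact hz (mem_iUnion.2 ⟨o, hcon⟩)
  -- the function
  let B : I → Set ℕ := fun i => {n | n ∈ T i ∧ px z ∈ NearP (μ i.1.1.1) n ∧
    py (μ β []) z ∈ NearP (μ i.1.1.1) n}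
  have hB : ∀ i, (T i).Infinite → ∀ m, ∃ n, m ≤ n ∧ n ∈ B i := by
    intro i hi m
    obtain ⟨n, ⟨h1, h2⟩, h3, h4⟩ := hzO (Sum.inl (i, m)) hi
    exact ⟨n, h1, h2, h3, h4⟩
  have hnx : ∀ (i : I) (m : ℕ), ∃ n, (T i).Infinite → m ≤ n ∧ n ∈ B i := by
    intro i m
    by_cases hi : (T i).Infinite
    · obtain ⟨n, hn⟩ := hB i hi m
      exact ⟨n, fun _ => hn⟩
    · exact ⟨0, fun h => absurd h hi⟩
  choose nx hnx using hnx
  have hIF : #(I × {F : Finset (KO κ) // ∀ a ∈ F, a ∈ Set.Iic β}) < κ := by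
    rw [Cardinal.mk_prod, Cardinal.lift_id, Cardinal.lift_id]
    exact Cardinal.mul_lt_of_lt h0.le hI (finset_sub_lt h0 _ (mk_Iic_KO h0 β))
  obtain ⟨f, hf⟩ := exists_generic_fn h0 hcov hIF fun i m =>
    i.2.1.sup fun a => μ a [] (nx i.1 m)
  refine ⟨(z, fun n => (Finset.range (n + 1)).sup f), ?_, ?_, ?_, ?_, ?_, ?_⟩
  · intro c hc A hA S hS hinf F hF
    apply Set.infinite_of_forall_exists_gt
    intro k
    let i : I := ((⟨c, hc⟩, ⟨A, hA⟩), ⟨S, hS⟩)
    obtain ⟨m, hm, hfm⟩ := hf (i, ⟨F, hF⟩) (k + 1)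
    obtain ⟨h1, h2, h3, h4⟩ := hnx i m hinf
    refine ⟨nx i m, ⟨h2, ⟨h3, h4⟩, fun a ha => ?_⟩, by omega⟩
    have h5 : μ a [] (nx i m) ≤ f m := by
      rw [hfm]
      exact Finset.le_sup (f := fun a => μ a [] (nx i m)) ha
    exact h5.trans (Finset.le_sup (f := f) (Finset.mem_range.2 (by omega)))
  · intro n k
    obtain ⟨m, h1, h2, h3, -⟩ := hzO (Sum.inr (none, n, k)) fun k => ⟨k, le_rfl, rfl⟩
    exact ⟨m, h1, h2, h3⟩
  · intro a ha n h
    obtain ⟨m, h1, h2, h3, h4⟩ := hzO (Sum.inr (some (⟨a, ha⟩, true), n, 0)) h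
    exact ⟨m, h2, h4⟩
  · intro a ha n h
    obtain ⟨m, h1, h2, h3, h4⟩ := hzO (Sum.inr (some (⟨a, ha⟩, false), n, 0)) h
    exact ⟨m, h2, h4⟩
  · intro a ha n h
    obtain ⟨m, h1, h2, h3, h4⟩ := hzO (Sum.inr (some (⟨a, ha⟩, true), n, 0)) h
    exact ⟨m, h3, h4⟩
  · intro a ha n h
    obtain ⟨m, h1, h2, h3, h4⟩ := hzO (Sum.inr (some (⟨a, ha⟩, false), n, 0)) h
    exact ⟨m, h3, h4⟩

/-- **The family.** -/
theorem exists_family (h0 : ℵ₀ < κ) (hcov : CovK κ) (μ : KO κ → List Bool → ℕ → ℕ) :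
    ∃ Y : KO κ → (ℕ → Bool) × (ℕ → ℕ), ∀ β, Stage μ β Y (Y β) := by
  refine exists_transfinite (fun β prev y => Stage μ β prev y) (exists_stage h0 hcov μ) ?_
  intro β prev prev' y hpp hP
  refine ⟨?_, hP.common, ?_, ?_, ?_, ?_⟩
  · intro c hc A hA S hS hinf F hF
    rw [TrP_congr μ hpp c hA hS] at hinf ⊢
    exact hP.tr c hc A hA S hS hinf F hF
  · intro a ha
    rw [← hpp a ha]
    exact hP.xx a ha
  · intro a ha
    rw [← hpp a ha]
    exact hP.xy a ha
  · intro a ha
    rw [← hpp a ha]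
    exact hP.yx a ha
  · intro a ha
    rw [← hpp a ha]
    exact hP.yy a ha

theorem trP_infinite {μ : KO κ → List Bool → ℕ → ℕ} {Y : KO κ → (ℕ → Bool) × (ℕ → ℕ)}
    (hY : ∀ β, Stage μ β Y (Y β)) (c : KO κ) (A : Finset (KO κ)) (hA : ∀ a ∈ A, c ≤ a)
    (S : Finset (KO κ × KO κ)) (hS : ∀ p ∈ S, c ≤ p.1 ∧ p.2 ≤ p.1) :
    (TrP μ Y c A S).Infinite := by
  classical
  have hempty : (TrP μ Y c ∅ ∅).Infinite := by
    have : TrP μ Y c ∅ ∅ = Set.univ := by
      rw [eq_univ_iff_forall]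
      intro n
      exact ⟨fun p hp => absurd hp (Finset.notMem_empty p),
        fun p hp => absurd hp (Finset.notMem_empty p)⟩
    rw [this]
    exact Set.infinite_univ
  -- the indices which occur
  let E : Finset (KO κ) → Finset (KO κ × KO κ) → Finset (KO κ) := fun A S => A ∪ S.image Prod.fst
  have key : ∀ β, ∀ A : Finset (KO κ), (∀ a ∈ A, c ≤ a) →
      ∀ S : Finset (KO κ × KO κ), (∀ p ∈ S, c ≤ p.1 ∧ p.2 ≤ p.1) →
      β ∈ E A S → (∀ a ∈ E A S, a ≤ β) → (TrP μ Y c A S).Infinite := by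
    intro β
    induction β using WellFoundedLT.induction with
    | ind β ih =>
      intro A hA S hS hβ hmax
      have hAE : ∀ a ∈ A, a ≤ β := fun a ha => hmax a (Finset.mem_union_left _ ha)
      have hSE : ∀ p ∈ S, p.1 ≤ β := fun p hp =>
        hmax _ (Finset.mem_union_right _ (Finset.mem_image_of_mem _ hp))
      have hcβ : c ≤ β := by
        rcases Finset.mem_union.1 hβ with h | h
        · exact hA β h
        · obtain ⟨p, hp, rfl⟩ := Finset.mem_image.1 h
          exact (hS p hp).1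
      let A' := A.filter fun a => a < β
      let S' := S.filter fun p => p.1 < β
      have hA' : ∀ a ∈ A', a ∈ A ∧ a < β := fun a ha => Finset.mem_filter.1 ha
      have hS' : ∀ p ∈ S', p ∈ S ∧ p.1 < β := fun p hp => Finset.mem_filter.1 hp
      have h1 : (TrP μ Y c A' S').Infinite := by
        rcases (E A' S').eq_empty_or_nonempty with h | h
        · have h1 : A' = ∅ := (Finset.union_eq_empty.1 h).1
          have h2 : S' = ∅ := Finset.image_eq_empty.1 (Finset.union_eq_empty.1 h).2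
          rw [h1, h2]
          exact hempty
        · obtain ⟨γ, hγ, hmax'⟩ := Finset.exists_max_image _ id h
          have hγβ : γ < β := by
            rcases Finset.mem_union.1 hγ with h | h
            · exact (hA' γ h).2
            · obtain ⟨p, hp, rfl⟩ := Finset.mem_image.1 h
              exact (hS' p hp).2
          exact ih γ hγβ A' (fun a ha => hA a (hA' a ha).1) S' (fun p hp => hS p (hS' p hp).1)
            hγ hmax'
      refine ((hY β).tr c hcβ A' (fun a ha => (hA' a ha).2) S' (fun p hp => ?_) h1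
          ((S.filter fun p => p.1 = β).image Prod.snd) (fun a ha => ?_)).mono ?_
      · exact ⟨(hS' p hp).2, (hS p (hS' p hp).1).2.trans_lt (hS' p hp).2⟩
      · obtain ⟨p, hp, rfl⟩ := Finset.mem_image.1 ha
        have h2 := Finset.mem_filter.1 hp
        exact (hS p h2.1).2.trans h2.2.le
      · rintro n ⟨hn1, hn2, hn3⟩
        refine ⟨fun a ha => ?_, fun p hp => ?_⟩
        · rcases (hAE a ha).lt_or_eq with h | h
          · exact hn1.1 a (Finset.mem_filter.2 ⟨ha, h⟩)
          · rw [h]; exact hn2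
        · rcases (hSE p hp).lt_or_eq with h | h
          · exact hn1.2 p (Finset.mem_filter.2 ⟨hp, h⟩)
          · rw [h]
            exact hn3 p.2 (Finset.mem_image.2 ⟨p, Finset.mem_filter.2 ⟨hp, h⟩, rfl⟩)
  rcases (E A S).eq_empty_or_nonempty with h | h
  · have h1 : A = ∅ := (Finset.union_eq_empty.1 h).1
    have h2 : S = ∅ := Finset.image_eq_empty.1 (Finset.union_eq_empty.1 h).2
    rw [h1, h2]
    exact hempty
  · obtain ⟨γ, hγ, hmax'⟩ := Finset.exists_max_image _ id h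
    exact key γ A hA S hS hγ hmax'

end family

end Pool.Agent.TH565.Grp
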