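import Pool.Agent.TH565.Grp.Set
import Pool.Agent.TH565.Grp.Defs

/-!
The set of the points of the family does not satisfy `S_fin(Ω, Ω)`, and its square is not Menger.
-/

set_option autoImplicit false

namespace Pool.Agent.TH565.Grp

open Set Filter Topology Pool.Agent.H752R3 Pool.Agent.H381R3.LP
open scoped Cardinal

variable {κ : Cardinal.{0}}

theorem exists_notMem_finite (μ : KO κ → List Bool → ℕ → ℕ) (Y : KO κ → (ℕ → Bool) × (ℕ → ℕ))
    {F : Set (ZS μ Y)} (hF : F.Finite) : ∃ z, z ∉ F := by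
  by_contra hcon
  push Not at hcon
  have h1 : (univ : Set (ZS μ Y)).Finite := hF.subset fun x _ => hcon x
  have h2 : Finite (ZS μ Y) := Set.finite_univ_iff.1 h1
  have h3 : Function.Injective (fun k : ℕ =>
      (⟨dpt (List.replicate k false), dpt_mem μ Y _⟩ : ZS μ Y)) := by
    intro k l hkl
    have h4 : dpt (List.replicate k false) = dpt (List.replicate l false) :=
      congrArg Subtype.val hkl
    have h5 : ∀ (k t : ℕ), dpt (List.replicate k false) t = decide (k ≤ t) := by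
      intro k t
      by_cases h : t < k
      · have : ¬ k ≤ t := not_le.2 h
        simp [dpt, List.getD_eq_getElem?_getD, h, this]
      · have h' : k ≤ t := not_lt.1 h
        simp [dpt, List.getD_eq_getElem?_getD, h', h]
    rcases lt_trichotomy k l with h | h | h
    · have h6 := congrFun h4 k
      rw [h5, h5] at h6
      simp at h6
      omega
    · exact h
    · have h6 := congrFun h4 l
      rw [h5, h5] at h6
      simp at h6
      omega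
  exact not_injective_infinite_finite _ h3

/-- The witnessing `ω`-covers. -/
def wcov (μ : KO κ → List Bool → ℕ → ℕ) (Y : KO κ → (ℕ → Bool) × (ℕ → ℕ)) (n : ℕ) :
    Set (Set (ZS μ Y)) :=
  {U | IsOpen U ∧ U ≠ univ ∧ ∃ m, ∀ x ∈ U, ∀ y ∈ U, ∃ j ≤ m,
    x.1 (Nat.pair n j) = true ∧ y.1 (Nat.pair n j) = true}

theorem isOpen_pos (Z : Set (ℕ → Bool)) (k : ℕ) : IsOpen {x : Z | x.1 k = true} := by
  have h : Continuous fun x : Z => x.1 k := (continuous_apply k).comp continuous_subtype_val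
  exact (isOpen_discrete ({true} : Set Bool)).preimage h

theorem wcov_mem {μ : KO κ → List Bool → ℕ → ℕ}
    {Y : KO κ → (ℕ → Bool) × (ℕ → ℕ)} (hY : ∀ β, Stage μ β Y (Y β)) (n : ℕ) :
    wcov μ Y n ∈ OmegaCovers (ZS μ Y) := by
  classical
  have main : ∀ F : Set (ZS μ Y), F.Finite → ∃ U ∈ wcov μ Y n, F ⊆ U := by
    intro F hF
    obtain ⟨z0, hz0⟩ := exists_notMem_finite μ Y hF
    have h1 : ∀ x y : ZS μ Y, ∃ m, x.1 (Nat.pair n m) = true ∧ y.1 (Nat.pair n m) = true :=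
      fun x y => common_ones hY x.2 y.2 n
    choose m hm1 hm2 using h1
    let G := hF.toFinset
    let M := (G ×ˢ G).sup fun q => m q.1 q.2
    have hM : ∀ x ∈ F, ∀ y ∈ F, m x y ≤ M := by
      intro x hx y hy
      exact Finset.le_sup (f := fun q : ZS μ Y × ZS μ Y => m q.1 q.2) (b := (x, y))
        (Finset.mem_product.2 ⟨hF.mem_toFinset.2 hx, hF.mem_toFinset.2 hy⟩)
    let N := (Finset.range (M + 1)).sup (fun j => Nat.pair n j) + 1
    have hN : ∀ j ≤ M, Nat.pair n j < N := by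
      intro j hj
      have : Nat.pair n j ≤ (Finset.range (M + 1)).sup (fun j => Nat.pair n j) :=
        Finset.le_sup (f := fun j => Nat.pair n j) (Finset.mem_range.2 (by omega))
      omega
    let U : Set (ZS μ Y) := (⋃ x ∈ F, {z | ∀ t < N, z.1 t = x.1 t}) ∩ {z0}ᶜ
    refine ⟨U, ⟨?_, ?_, M, ?_⟩, ?_⟩
    · refine IsOpen.inter ?_ isOpen_compl_singleton
      refine isOpen_biUnion fun x _ => ?_
      exact (isOpen_agree x.1 N).preimage continuous_subtype_val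
    · intro h
      have h2 : z0 ∈ U := by rw [h]; trivial
      exact h2.2 rfl
    · intro z hz w hw
      obtain ⟨x, hx, hzx⟩ := mem_iUnion₂.1 hz.1
      obtain ⟨y, hy, hwy⟩ := mem_iUnion₂.1 hw.1
      refine ⟨m x y, hM x hx y hy, ?_, ?_⟩
      · rw [hzx _ (hN _ (hM x hx y hy))]
        exact hm1 x y
      · rw [hwy _ (hN _ (hM x hx y hy))]
        exact hm2 x y
    · intro x hx
      refine ⟨mem_iUnion₂.2 ⟨x, hx, fun _ _ => rfl⟩, fun h => hz0 ?_⟩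
      have : x = z0 := h
      rwa [← this]
  refine ⟨fun U hU => hU.1, ?_, fun h => h.2.1 rfl, main⟩
  rw [eq_univ_iff_forall]
  intro x
  obtain ⟨U, hU, hxU⟩ := main {x} (finite_singleton x)
  exact ⟨U, hU, hxU rfl⟩

/-- `S_fin(Ω, Ω)` fails. -/
theorem not_sfin {μ : KO κ → List Bool → ℕ → ℕ}
    (hdom : ∀ g : List Bool → ℕ → ℕ, ∃ c, ∀ p n, g p n ≤ μ c p n)
    {Y : KO κ → (ℕ → Bool) × (ℕ → ℕ)} (hY : ∀ β, Stage μ β Y (Y β)) :
    ¬ Sfin (OmegaCovers (ZS μ Y)) (OmegaCovers (ZS μ Y)) := by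
  classical
  intro h
  obtain ⟨ℱ, h1, h2⟩ := h (wcov μ Y) fun n => wcov_mem hY n
  have h3 : ∀ (n : ℕ) (U : Set (ZS μ Y)), ∃ m, U ∈ ℱ n → ∀ x ∈ U, ∀ y ∈ U, ∃ j ≤ m,
      x.1 (Nat.pair n j) = true ∧ y.1 (Nat.pair n j) = true := by
    intro n U
    by_cases hU : U ∈ ℱ n
    · obtain ⟨-, -, m, hm⟩ := (h1 n).1 hU
      exact ⟨m, fun _ => hm⟩
    · exact ⟨0, fun h => absurd h hU⟩
  choose m hm using h3
  obtain ⟨c, hc⟩ := hdom fun _ n => (h1 n).2.toFinset.sup (m n) + 1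
  obtain ⟨U, hU, hFU⟩ := h2.2.2.2
    {(⟨px (Y c).1, px_mem μ Y c⟩ : ZS μ Y), ⟨py (μ c []) (Y c).1, py_mem μ Y c⟩}
    (by simp)
  obtain ⟨n, hn⟩ := mem_iUnion.1 hU
  obtain ⟨j, hj, hj1, hj2⟩ := hm n U hn _ (hFU (Or.inl rfl)) _ (hFU (Or.inr rfl))
  have h4 := pair_large (μ c []) (Y c).1 n j hj1 hj2
  have h5 := hc [] n
  have h6 : m n U ≤ (h1 n).2.toFinset.sup (m n) :=
    Finset.le_sup ((h1 n).2.mem_toFinset.2 hn)
  omega

/-- The square is not Menger. -/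
theorem not_menger_sq {μ : KO κ → List Bool → ℕ → ℕ}
    (hdom : ∀ g : List Bool → ℕ → ℕ, ∃ c, ∀ p n, g p n ≤ μ c p n)
    {Y : KO κ → (ℕ → Bool) × (ℕ → ℕ)} (hY : ∀ β, Stage μ β Y (Y β)) :
    ¬ Sfin (OpenCovers (ZS μ Y × ZS μ Y)) (OpenCovers (ZS μ Y × ZS μ Y)) := by
  classical
  intro h
  let R : ℕ → ℕ → Set (ZS μ Y × ZS μ Y) := fun n m =>
    ⋃ j ∈ Iic m, {q | q.1.1 (Nat.pair n j) = true ∧ q.2.1 (Nat.pair n j) = true}
  obtain ⟨ℱ, h1, h2⟩ := h (fun n => range (R n)) fun n => by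
    refine ⟨?_, ?_⟩
    · rintro _ ⟨m, rfl⟩
      refine isOpen_biUnion fun j _ => ?_
      exact ((isOpen_pos _ _).preimage continuous_fst).inter
        ((isOpen_pos _ _).preimage continuous_snd)
    · rw [eq_univ_iff_forall]
      rintro ⟨x, y⟩
      obtain ⟨m, hm1, hm2⟩ := common_ones hY x.2 y.2 n
      exact ⟨_, ⟨m, rfl⟩, mem_iUnion₂.2 ⟨m, mem_Iic.2 le_rfl, hm1, hm2⟩⟩
  have h3 : ∀ (n : ℕ) (U : Set (ZS μ Y × ZS μ Y)), ∃ m, U ∈ ℱ n → U = R n m := by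
    intro n U
    by_cases hU : U ∈ ℱ n
    · obtain ⟨m, hm⟩ := (h1 n).1 hU
      exact ⟨m, fun _ => hm.symm⟩
    · exact ⟨0, fun h => absurd h hU⟩
  choose m hm using h3
  obtain ⟨c, hc⟩ := hdom fun _ n => (h1 n).2.toFinset.sup (m n) + 1
  have h7 : ((⟨px (Y c).1, px_mem μ Y c⟩, ⟨py (μ c []) (Y c).1, py_mem μ Y c⟩) :
      ZS μ Y × ZS μ Y) ∈ ⋃₀ ⋃ n, ℱ n := by
    rw [h2.2]; trivial
  obtain ⟨U, hU, hxU⟩ := h7
  obtain ⟨n, hn⟩ := mem_iUnion.1 hU
  rw [hm n U hn] at hxU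
  obtain ⟨j, hj, hj1, hj2⟩ := mem_iUnion₂.1 hxU
  have h4 := pair_large (μ c []) (Y c).1 n j hj1 hj2
  have h5 := hc [] n
  have h6 : m n U ≤ (h1 n).2.toFinset.sup (m n) :=
    Finset.le_sup ((h1 n).2.mem_toFinset.2 hn)
  have hj' : j ≤ m n U := hj
  omega

theorem sfin_of_s1 {X : Type*} {𝒜 ℬ : Set (Set (Set X))} (h : S1 𝒜 ℬ) : Sfin 𝒜 ℬ := by
  intro 𝒰 h𝒰
  obtain ⟨U, h1, h2⟩ := h 𝒰 h𝒰
  refine ⟨fun n => {U n}, fun n => ⟨by simpa using h1 n, finite_singleton _⟩, ?_⟩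
  have : (⋃ n, ({U n} : Set (Set X))) = range U := by
    ext V
    simp [eq_comm]
  rwa [this]

end Pool.Agent.TH565.Grp
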