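import Pool.Agent.TH565.Grp.Sel
import Pool.Agent.TH565.Grp.Neg

/-!
If `𝔡 ≤ cov(M)` and `cov(M)` is regular, there is a set of reals which satisfies
`S_1(Ω, O^{ω-gp})`, does not satisfy `S_fin(Ω, Ω)`, and has a square which is not Menger.
-/

set_option autoImplicit false

namespace Pool.Agent.TH565.Grp

open Set Filter Topology Cardinal Pool.Agent.H752R3 Pool.Agent.H381R3.LP

/-- The least cardinality of a family of meagre sets covering the Cantor space. -/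
noncomputable def covM : Cardinal.{0} :=
  sInf {κ | ∃ A : Set (Set (ℕ → Bool)), (∀ M ∈ A, IsMeagre M) ∧ ⋃₀ A = Set.univ ∧ #A = κ}

/-- The least cardinality of a dominating family of functions. -/
noncomputable def domD : Cardinal.{0} :=
  sInf {κ | ∃ A : Set (ℕ → ℕ), (∀ g : ℕ → ℕ, ∃ f ∈ A, ∀ᶠ n in atTop, g n ≤ f n) ∧ #A = κ}

theorem covK_covM : CovK covM := by
  intro ι M hι hM hU
  have h1 : #(range M) ∈
      {κ | ∃ A : Set (Set (ℕ → Bool)), (∀ M ∈ A, IsMeagre M) ∧ ⋃₀ A = Set.univ ∧ #A = κ} := by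
    refine ⟨range M, ?_, ?_, rfl⟩
    · rintro _ ⟨i, rfl⟩
      exact hM i
    · rw [sUnion_range]
      exact hU
  have h2 : covM ≤ #(range M) := csInf_le' h1
  exact absurd (h2.trans Cardinal.mk_range_le) (not_le.2 hι)

theorem aleph0_lt_covM : ℵ₀ < covM := by
  have h1 : #(range fun x : ℕ → Bool => ({x} : Set (ℕ → Bool))) ∈
      {κ | ∃ A : Set (Set (ℕ → Bool)), (∀ M ∈ A, IsMeagre M) ∧ ⋃₀ A = Set.univ ∧ #A = κ} := by
    refine ⟨_, ?_, ?_, rfl⟩
    · rintro _ ⟨x, rfl⟩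
      exact (isNowhereDense_singleton_cantor x).isMeagre
    · rw [eq_univ_iff_forall]
      intro x
      exact ⟨{x}, ⟨x, rfl⟩, rfl⟩
  rw [← Order.succ_le_iff]
  apply le_csInf ⟨_, h1⟩
  rintro κ ⟨A, hA1, hA2, rfl⟩
  rw [Order.succ_le_iff]
  by_contra hlt
  have hc : A.Countable := Cardinal.mk_le_aleph0_iff.1 (not_lt.1 hlt)
  have h2 : IsMeagre (⋃₀ A) := by
    rw [sUnion_eq_biUnion]
    exact isMeagre_biUnion hc hA1
  rw [hA2] at h2
  exact not_isMeagre_of_isOpen isOpen_univ univ_nonempty h2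

theorem covM_le : covM ≤ 𝔠 := by
  have h1 : #(range fun x : ℕ → Bool => ({x} : Set (ℕ → Bool))) ∈
      {κ | ∃ A : Set (Set (ℕ → Bool)), (∀ M ∈ A, IsMeagre M) ∧ ⋃₀ A = Set.univ ∧ #A = κ} := by
    refine ⟨_, ?_, ?_, rfl⟩
    · rintro _ ⟨x, rfl⟩
      exact (isNowhereDense_singleton_cantor x).isMeagre
    · rw [eq_univ_iff_forall]
      intro x
      exact ⟨{x}, ⟨x, rfl⟩, rfl⟩
  refine (csInf_le' h1).trans ?_
  refine Cardinal.mk_range_le.trans ?_
  simp

theorem domD_le : domD ≤ 𝔠 := by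
  have h1 : #(Set.univ : Set (ℕ → ℕ)) ∈
      {κ | ∃ A : Set (ℕ → ℕ), (∀ g : ℕ → ℕ, ∃ f ∈ A, ∀ᶠ n in atTop, g n ≤ f n) ∧ #A = κ} :=
    ⟨_, fun g => ⟨g, Set.mem_univ _, Eventually.of_forall fun n => le_rfl⟩, rfl⟩
  refine (csInf_le' h1).trans ?_
  simp

/-- A family indexed by `cov(M)` which dominates everywhere. -/
theorem exists_mu (hd : domD ≤ covM) : ∃ μ : KO covM → List Bool → ℕ → ℕ,
    ∀ g : List Bool → ℕ → ℕ, ∃ c, ∀ p n, g p n ≤ μ c p n := by
  classical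
  obtain ⟨A, hA, hAc⟩ : domD ∈
      {κ | ∃ A : Set (ℕ → ℕ), (∀ g : ℕ → ℕ, ∃ f ∈ A, ∀ᶠ n in atTop, g n ≤ f n) ∧ #A = κ} := by
    apply csInf_mem
    exact ⟨_, Set.univ, fun g => ⟨g, Set.mem_univ _, Eventually.of_forall fun n => le_rfl⟩, rfl⟩
  obtain ⟨f0, hf0, -⟩ := hA fun _ => 0
  have : Nonempty A := ⟨⟨f0, hf0⟩⟩
  have hcard : #(A × ℕ) ≤ #(KO covM) := by
    rw [Cardinal.mk_prod, Cardinal.lift_id, Cardinal.lift_id, hAc, Cardinal.mk_ord_toType]
    refine Cardinal.mul_le_of_le aleph0_lt_covM.le hd ?_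
    simpa using aleph0_lt_covM.le
  obtain ⟨g⟩ := (Cardinal.le_def _ _).1 hcard
  have hs := Function.invFun_surjective g.injective
  let e : List Bool × ℕ → ℕ := Encodable.encode
  have he : Function.Injective e := Encodable.encode_injective
  have hinv : ∀ q, Function.invFun e (e q) = q := Function.leftInverse_invFun he
  refine ⟨fun a p n => (Function.invFun g a : A × ℕ).1.1 (e (p, n)) +
    (Function.invFun g a : A × ℕ).2, fun G => ?_⟩
  let h : ℕ → ℕ := fun k => G (Function.invFun e k).1 (Function.invFun e k).2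
  obtain ⟨f, hf, hfh⟩ := hA h
  obtain ⟨N, hN⟩ := eventually_atTop.1 hfh
  obtain ⟨a, ha⟩ := hs (⟨f, hf⟩, (Finset.range N).sup h)
  refine ⟨a, fun p n => ?_⟩
  have h1 : G p n = h (e (p, n)) := by simp only [h, hinv]
  show G p n ≤ (Function.invFun g a : A × ℕ).1.1 (e (p, n)) + (Function.invFun g a : A × ℕ).2
  rw [ha, h1]
  rcases Nat.lt_or_ge (e (p, n)) N with h2 | h2
  · have h3 : h (e (p, n)) ≤ (Finset.range N).sup h := Finset.le_sup (Finset.mem_range.2 h2)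
    exact h3.trans (Nat.le_add_left _ _)
  · exact (hN _ h2).trans (Nat.le_add_right _ _)

/-- The Cantor space embeds in the real line. -/
theorem exists_embedding : ∃ φ : (ℕ → Bool) → ℝ, IsEmbedding φ := by
  obtain ⟨φ, -, h1, h2⟩ := (PerfectSpace.univ_perfect ℝ).exists_nat_bool_injection univ_nonempty
  exact ⟨φ, (h1.isClosedEmbedding h2).isEmbedding⟩

/-- **The main theorem.** -/
theorem main (hd : domD ≤ covM) (hr : covM.IsRegular) :
    ∃ X : Set ℝ, S1 (OmegaCovers X) (OmegaGroupable X) ∧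
      ¬ Sfin (OmegaCovers X) (OmegaCovers X) ∧ ¬ S1 (OmegaCovers X) (OmegaCovers X) ∧
      ¬ Sfin (OpenCovers (X × X)) (OpenCovers (X × X)) := by
  obtain ⟨μ, hμ⟩ := exists_mu hd
  obtain ⟨Y, hY⟩ := exists_family aleph0_lt_covM covK_covM μ
  obtain ⟨φ, hφ⟩ := exists_embedding
  have hψ : IsEmbedding fun z : ZS μ Y => φ z.1 := hφ.comp IsEmbedding.subtypeVal
  let e := hψ.toHomeomorph
  have h2 : ¬ Sfin (OmegaCovers (range fun z : ZS μ Y => φ z.1))
      (OmegaCovers (range fun z : ZS μ Y => φ z.1)) :=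
    fun h => not_sfin hμ hY (sfin_omega_homeo e.symm h)
  exact ⟨range fun z : ZS μ Y => φ z.1,
    s1_groupable_homeo e (s1_groupable hr aleph0_lt_covM covK_covM hμ hY), h2,
    fun h => h2 (sfin_of_s1 h),
    fun h => not_menger_sq hμ hY (menger_homeo (e.symm.prodCongr e.symm) h)⟩

theorem main_ch (hc : (ℵ₁ : Cardinal.{0}) = 𝔠) :
    ∃ X : Set ℝ, S1 (OmegaCovers X) (OmegaGroupable X) ∧
      ¬ Sfin (OmegaCovers X) (OmegaCovers X) ∧ ¬ S1 (OmegaCovers X) (OmegaCovers X) ∧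
      ¬ Sfin (OpenCovers (X × X)) (OpenCovers (X × X)) := by
  have h1 : ℵ₁ ≤ covM := by
    rw [← Cardinal.succ_aleph0]
    exact Order.succ_le_of_lt aleph0_lt_covM
  have h2 : covM = ℵ₁ := le_antisymm (covM_le.trans hc.ge) h1
  refine main ((domD_le.trans hc.ge).trans h1) ?_
  rw [h2]
  exact Cardinal.isRegular_aleph_one

end Pool.Agent.TH565.Grp
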