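import Pool.Agent.TH565.Grp.Set
import Pool.Agent.TH565.Grp.Defs

/-!
The selection `S_1(Ω, O^{ω-gp})` for the set of the points of the family.
-/

set_option autoImplicit false

namespace Pool.Agent.TH565.Grp

open Set Filter Topology Pool.Agent.H752R3 Pool.Agent.H381R3.LP
open scoped Cardinal

/-- Block boundaries. -/
theorem exists_blocks (g : ℕ → ℕ) : ∃ b : ℕ → ℕ, b 0 = 0 ∧ StrictMono b ∧
    ∀ k, ∀ n ≤ b k, g n < b (k + 1) := by
  let step : ℕ → ℕ := fun b => max b ((Finset.range (b + 1)).sup g) + 1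
  let b : ℕ → ℕ := fun n => Nat.rec 0 (fun _ b => step b) n
  have hb : ∀ n, b (n + 1) = step (b n) := fun n => rfl
  refine ⟨b, rfl, strictMono_nat_of_lt_succ fun k => ?_, fun k n hn => ?_⟩
  · rw [hb]
    have := le_max_left (b k) ((Finset.range (b k + 1)).sup g)
    simp only [step]
    omega
  · rw [hb]
    have h1 : g n ≤ (Finset.range (b k + 1)).sup g :=
      Finset.le_sup (f := g) (Finset.mem_range.2 (by omega))
    have := le_max_right (b k) ((Finset.range (b k + 1)).sup g)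
    simp only [step]
    omega

theorem exists_block (b : ℕ → ℕ) (h0 : b 0 = 0) (hb : StrictMono b) (n : ℕ) :
    ∃ k, b k ≤ n ∧ n < b (k + 1) := by
  induction n with
  | zero =>
    refine ⟨0, h0.le, ?_⟩
    have := hb (Nat.lt_succ_self 0)
    rw [h0] at this
    exact this
  | succ n ih =>
    obtain ⟨k, h1, h2⟩ := ih
    rcases Nat.lt_or_ge (n + 1) (b (k + 1)) with h | h
    · exact ⟨k, h1.trans (Nat.le_succ n), h⟩
    · exact ⟨k + 1, h, (Nat.succ_le_of_lt h2).trans_lt (hb (Nat.lt_succ_self _))⟩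

/-- The grouping of a sequence of open sets in which every value is repeated finitely often. -/
theorem grouping {X : Type*} [TopologicalSpace X] (S : ℕ → Set X) (hS : ∀ n, IsOpen (S n))
    (hcov : ⋃₀ range S = univ) (N : ℕ → ℕ) (hN : ∀ j i, S i = S j → i ≤ N j) (H : ℕ → ℕ)
    (hH : ∀ F : Set X, F.Finite →
      {n | ∀ x ∈ F, ∃ j, n ≤ j ∧ j < H n ∧ x ∈ S j}.Infinite) :
    range S ∈ OmegaGroupable X := by
  classical
  obtain ⟨b, hb0, hbm, hb⟩ := exists_blocks fun n => max (N n) (H n)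
  choose K hK1 hK2 using exists_block b hb0 hbm
  have hKle : ∀ j k, j < b (k + 1) → K j ≤ k := by
    intro j k h
    by_contra hcon
    have h1 : k + 1 ≤ K j := by omega
    have h2 := hbm.monotone h1
    have h3 := hK1 j
    omega
  have hleK : ∀ j k, b k ≤ j → k ≤ K j := by
    intro j k h
    by_contra hcon
    have h1 : K j + 1 ≤ k := by omega
    have h2 := hbm.monotone h1
    have h3 := hK2 j
    omega
  -- first occurrences
  have hfo : ∀ j, ∃ j', S j' = S j ∧ (∀ i < j', S i ≠ S j') ∧ j' ≤ j := by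
    intro j
    have hex : ∃ i, S i = S j := ⟨j, rfl⟩
    refine ⟨Nat.find hex, Nat.find_spec hex, fun i hi h => ?_, Nat.find_min' hex rfl⟩
    exact Nat.find_min hex hi (h.trans (Nat.find_spec hex))
  -- the good blocks of a finite set
  let Kf : Set X → Set ℕ := fun F => {k | ∀ x ∈ F, ∃ j, x ∈ S j ∧ (∀ i < j, S i ≠ S j) ∧
    k ≤ K j ∧ K j ≤ k + 2}
  have hKf : ∀ F : Set X, F.Finite → (Kf F).Infinite := by
    intro F hF
    apply Set.infinite_of_forall_exists_gt
    intro k0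
    obtain ⟨n, hn, hnk⟩ := (hH F hF).exists_gt (b (k0 + 2))
    have hk1 : k0 + 2 ≤ K n := hleK n _ hnk.le
    obtain ⟨k, hk⟩ : ∃ k, K n = k + 1 := ⟨K n - 1, by omega⟩
    refine ⟨k, fun x hx => ?_, by omega⟩
    obtain ⟨j, hj1, hj2, hxj⟩ := hn x hx
    obtain ⟨j', hj'1, hj'2, hj'3⟩ := hfo j
    refine ⟨j', by rw [hj'1]; exact hxj, hj'2, ?_, ?_⟩
    · by_contra hcon
      have h1 : K j' + 1 ≤ k := by omega
      have h2 := hK2 j'
      have h3 := hbm.monotone h1
      have h4 := hb k j' (by omega)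
      have h5 := hN j' j hj'1.symm
      have h6 := le_max_left (N j') (H j')
      have h7 := hK1 n
      rw [hk] at h7
      omega
    · have h1 : H n < b (K n + 2) := by
        have h2 := hb (K n + 1) n (hK2 n).le
        have h6 := le_max_right (N n) (H n)
        exact lt_of_le_of_lt h6 h2
      have h3 : j' < b (K n + 1 + 1) := by
        have : K n + 1 + 1 = K n + 2 := rfl
        rw [this]
        omega
      have := hKle j' _ h3
      omega
  -- the residue
  obtain ⟨r, hr3, hr⟩ : ∃ r < 3, ∀ F : Set X, F.Finite → ∃ k ∈ Kf F, k % 3 = r := by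
    by_contra hcon
    push Not at hcon
    have h1 : ∀ r : Fin 3, ∃ F : Set X, F.Finite ∧ ∀ k ∈ Kf F, k % 3 ≠ r := fun r =>
      hcon r.1 r.2
    choose F hF1 hF2 using h1
    obtain ⟨k, hk⟩ := (hKf (⋃ r, F r) (finite_iUnion hF1)).nonempty
    have h2 : k % 3 < 3 := Nat.mod_lt _ (by norm_num)
    exact hF2 ⟨k % 3, h2⟩ k (fun x hx => hk x (mem_iUnion.2 ⟨_, hx⟩)) rfl
  refine ⟨?_, hcov, fun i => {U | ∃ j, S j = U ∧ (∀ i < j, S i ≠ S j) ∧ (K j + 3 - r) / 3 = i},
    ?_, ?_, ?_, ?_⟩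
  · rintro _ ⟨n, rfl⟩
    exact hS n
  · intro i
    refine ((finite_Iio (b (3 * i + 4))).image S).subset ?_
    rintro _ ⟨j, rfl, -, hj⟩
    refine ⟨j, ?_, rfl⟩
    have h1 : K j + 1 ≤ 3 * i + 4 := by omega
    exact (hK2 j).trans_le (hbm.monotone h1)
  · intro i i' hii'
    rw [Set.disjoint_left]
    rintro _ ⟨j, rfl, hj1, hj2⟩ ⟨j', hj'0, hj'1, hj'2⟩
    have : j = j' := by
      rcases lt_trichotomy j j' with h | h | h
      · exact absurd hj'0.symm (hj'1 j h)
      · exact h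
      · exact absurd hj'0 (hj1 j' h)
    subst this
    exact hii' (hj2.symm.trans hj'2)
  · ext U
    constructor
    · intro hU
      obtain ⟨i, j, hj, -⟩ := mem_iUnion.1 hU
      exact ⟨j, hj⟩
    · rintro ⟨j, rfl⟩
      obtain ⟨j', h1, h2, -⟩ := hfo j
      exact mem_iUnion.2 ⟨_, j', h1, h2, rfl⟩
  · intro F hF
    obtain ⟨k, hk, hkr⟩ := hr F hF
    refine ⟨(k + 3 - r) / 3, fun x hx => ?_⟩
    obtain ⟨j, hj1, hj2, hj3, hj4⟩ := hk x hx
    exact ⟨S j, ⟨j, rfl, hj2, by omega⟩, hj1⟩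

section

variable {κ : Cardinal.{0}}

/-- The set of the points of the family satisfies `S_1(Ω, O^{ω-gp})`. -/
theorem s1_groupable (hr : κ.IsRegular) (h0 : ℵ₀ < κ) (hcovK : CovK κ)
    {μ : KO κ → List Bool → ℕ → ℕ}
    (hdom : ∀ g : List Bool → ℕ → ℕ, ∃ c, ∀ p n, g p n ≤ μ c p n)
    {Y : KO κ → (ℕ → Bool) × (ℕ → ℕ)} (hY : ∀ β, Stage μ β Y (Y β)) :
    S1 (OmegaCovers (ZS μ Y)) (OmegaGroupable (ZS μ Y)) := by
  classical
  intro 𝒰 h𝒰
  choose u hu1 hu2 using fun n => countable_sub (h𝒰 n)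
  -- points outside of the members of the covers
  have ha : ∀ q : ℕ, ∃ x : ZS μ Y, x ∉ u (Nat.unpair q).1 (Nat.unpair q).2 := by
    intro q
    have h1 : u (Nat.unpair q).1 (Nat.unpair q).2 ≠ univ := fun h =>
      (h𝒰 _).2.2.1 (h ▸ hu1 _ _)
    exact (ne_univ_iff_exists_notMem _).1 h1
  choose a ha using ha
  -- the choice functions
  have hJ : ∀ (n : ℕ) (F : Finset (ZS μ Y)), ∃ i, (a '' Iio n ∪ ↑F) ⊆ u n i := fun n F =>
    hu2 n _ (((finite_Iio n).image a).union F.finite_toSet)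
  choose J hJ using hJ
  -- open extensions
  have hext : ∀ n i, ∃ V : Set (ℕ → Bool), IsOpen V ∧ Subtype.val ⁻¹' V = u n i := fun n i =>
    isOpen_induced_iff.1 ((h𝒰 n).1 _ (hu1 n i))
  choose V hVo hV using hext
  obtain ⟨pe, hpe⟩ : ∃ pe : ℕ → List Bool, ∀ p N, ∃ n ≥ N, pe n = p := by
    obtain ⟨f, hf⟩ := exists_surjective_nat (List Bool)
    refine ⟨fun n => f (Nat.unpair n).1, fun r N => ?_⟩
    obtain ⟨m, hm⟩ := hf r
    exact ⟨Nat.pair m N, Nat.right_le_pair _ _, by simp [hm]⟩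
  let dp : List Bool → ZS μ Y := fun p => ⟨dpt p, dpt_mem μ Y p⟩
  let se : ℕ → ℕ := fun k => J (2 * k) {dp (pe k)}
  -- the even part covers all but the first members
  have hW : ∀ j, ∃ c, ∀ β, c ≤ β → px (Y β).1 ∈ (⋃ k ∈ Ici j, V (2 * k) (se k)) ∧
      py (μ β []) (Y β).1 ∈ (⋃ k ∈ Ici j, V (2 * k) (se k)) := by
    intro j
    refine concentrated hdom hY (isOpen_biUnion fun k _ => hVo _ _) fun p => ?_
    obtain ⟨k, hk, rfl⟩ := hpe p j
    refine mem_iUnion₂.2 ⟨k, hk, ?_⟩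
    have h1 : dp (pe k) ∈ u (2 * k) (se k) := hJ (2 * k) {dp (pe k)} (Or.inr (by simp))
    rw [← hV] at h1
    exact h1
  choose c hc using hW
  obtain ⟨c0, hc0⟩ := exists_above hr h0 (ι := ℕ) (by simpa using h0) c
  -- the odd part covers the first members
  let pt : List Bool ⊕ (Set.Iio c0 × Bool) → ZS μ Y := fun i => match i with
    | Sum.inl p => dp p
    | Sum.inr (β, true) => ⟨px (Y β).1, px_mem μ Y β⟩
    | Sum.inr (β, false) => ⟨py (μ β []) (Y β).1, py_mem μ Y β⟩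
  have hcard : #(List Bool ⊕ (Set.Iio c0 × Bool)) < κ := by
    rw [Cardinal.mk_sum, Cardinal.lift_id, Cardinal.lift_id]
    refine Cardinal.add_lt_of_lt h0.le ((Cardinal.mk_le_aleph0).trans_lt h0) ?_
    rw [Cardinal.mk_prod, Cardinal.lift_id, Cardinal.lift_id]
    refine Cardinal.mul_lt_of_lt h0.le (mk_Iio_KO c0) ?_
    exact (Cardinal.lt_aleph0_of_finite Bool).trans h0
  obtain ⟨f, hf⟩ := exists_generic_fn h0 hcovK hcard fun i k => J (2 * k + 1) {pt i}
  let s : ℕ → ℕ := fun n => if n % 2 = 0 then se (n / 2) else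
    if a '' Iio n ⊆ u n (f (n / 2)) then f (n / 2) else J n ∅
  have hse : ∀ k, s (2 * k) = se k := by
    intro k
    have h1 : 2 * k % 2 = 0 := by omega
    have h2 : 2 * k / 2 = k := by omega
    simp [s, h2]
  have hsa : ∀ n, a '' Iio n ⊆ u n (s n) := by
    intro n
    by_cases h1 : n % 2 = 0
    · obtain ⟨k, rfl⟩ : ∃ k, n = 2 * k := ⟨n / 2, by omega⟩
      rw [hse]
      exact subset_union_left.trans (hJ (2 * k) {dp (pe k)})
    · by_cases h2 : a '' Iio n ⊆ u n (f (n / 2))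
      · simp only [s, h1, h2, if_false, if_true]
      · simp only [s, h1, h2, if_false]
        exact subset_union_left.trans (hJ n ∅)
  let S : ℕ → Set (ZS μ Y) := fun n => u n (s n)
  -- each point is covered infinitely often
  have hSinf : ∀ x : ZS μ Y, ∀ N, ∃ n, N ≤ n ∧ x ∈ S n := by
    have hsmall : ∀ i N, ∃ n, N ≤ n ∧ pt i ∈ S n := by
      intro i N
      obtain ⟨m, hm, hfm⟩ := hf i N
      refine ⟨2 * m + 1, by omega, ?_⟩
      have h1 : (2 * m + 1) % 2 ≠ 0 := by omega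
      have h2 : (2 * m + 1) / 2 = m := by omega
      have h3 : a '' Iio (2 * m + 1) ⊆ u (2 * m + 1) (f ((2 * m + 1) / 2)) := by
        rw [h2, hfm]
        exact subset_union_left.trans (hJ (2 * m + 1) {pt i})
      have h4 : s (2 * m + 1) = J (2 * m + 1) {pt i} := by
        simp only [s, h1, h3, if_false, if_true]
        rw [h2, hfm]
      show pt i ∈ u (2 * m + 1) (s (2 * m + 1))
      rw [h4]
      exact hJ (2 * m + 1) {pt i} (Or.inr (by simp))
    have hbig : ∀ β, c0 ≤ β → ∀ x : ZS μ Y, (x.1 = px (Y β).1 ∨ x.1 = py (μ β []) (Y β).1) →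
        ∀ N, ∃ n, N ≤ n ∧ x ∈ S n := by
      intro β hβ x hx N
      have h1 := hc N β ((hc0 N).le.trans hβ)
      have h2 : x.1 ∈ ⋃ k ∈ Ici N, V (2 * k) (se k) := by
        rcases hx with h | h
        · rw [h]; exact h1.1
        · rw [h]; exact h1.2
      obtain ⟨k, hk, hxk⟩ := mem_iUnion₂.1 h2
      have hk' : N ≤ k := hk
      refine ⟨2 * k, by omega, ?_⟩
      show x ∈ u (2 * k) (s (2 * k))
      rw [hse, ← hV]
      exact hxk
    rintro ⟨x, hx⟩ N
    rcases hx with ⟨p, rfl⟩ | ⟨β, hβ⟩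
    · exact hsmall (Sum.inl p) N
    · rcases le_or_gt c0 β with h | h
      · exact hbig β h _ hβ N
      · rcases hβ with rfl | rfl
        · exact hsmall (Sum.inr (⟨β, h⟩, true)) N
        · exact hsmall (Sum.inr (⟨β, h⟩, false)) N
  -- each set is repeated finitely often
  have hN : ∀ j i, S i = S j → i ≤ Nat.pair j (s j) := by
    intro j i hij
    by_contra hcon
    have h1 : a (Nat.pair j (s j)) ∈ S i := hsa i ⟨_, not_le.1 hcon, rfl⟩
    rw [hij] at h1
    have h2 := ha (Nat.pair j (s j))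
    rw [Nat.unpair_pair] at h2
    exact h2 h1
  -- the diagonal cover
  obtain ⟨H, hH⟩ := diag_cover hr h0 hdom hY
    (fun n m => ⋃ j ∈ Ico n m, V j (s j)) (fun n m => isOpen_biUnion fun j _ => hVo _ _)
    (fun n m m' hm => biUnion_subset_biUnion_left (Ico_subset_Ico_right hm)) (by
      intro n z hz
      obtain ⟨j, hj, hxj⟩ := hSinf ⟨z, hz⟩ n
      refine ⟨j + 1, mem_iUnion₂.2 ⟨j, ⟨hj, Nat.lt_succ_self j⟩, ?_⟩⟩
      have h1 : (⟨z, hz⟩ : ZS μ Y) ∈ u j (s j) := hxj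
      rw [← hV] at h1
      exact h1)
  refine ⟨S, fun n => hu1 n (s n), grouping S (fun n => (h𝒰 n).1 _ (hu1 n (s n))) ?_
    (fun j => Nat.pair j (s j)) hN H fun F hF => ?_⟩
  · rw [eq_univ_iff_forall]
    intro x
    obtain ⟨n, -, hn⟩ := hSinf x 0
    exact ⟨_, ⟨n, rfl⟩, hn⟩
  · refine (hH (hF.toFinset.image Subtype.val) (by
      intro z hz
      obtain ⟨x, -, rfl⟩ := Finset.mem_image.1 hz
      exact x.2)).mono ?_
    intro n hn x hx
    have h1 := hn x.1 (Finset.mem_image_of_mem _ (hF.mem_toFinset.2 hx))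
    obtain ⟨j, hj, hxj⟩ := mem_iUnion₂.1 h1
    refine ⟨j, hj.1, hj.2, ?_⟩
    show x ∈ u j (s j)
    rw [← hV]
    exact hxj

end

end Pool.Agent.TH565.Grp
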