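import Pool.Agent.TH565.Grp.Fam

/-!
The set of all points of the family, with the eventually constant points: it is concentrated,
every sequence of increasing covers has a diagonal `ω`-subcover, and the pairs of points dominate.
-/

set_option autoImplicit false

namespace Pool.Agent.TH565.Grp

open Set Filter Topology Pool.Agent.H752R3 Pool.Agent.H381R3.LP
open scoped Cardinal

variable {κ : Cardinal.{0}}

/-- The set of all points of the family, with the eventually constant points. -/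
def ZS (μ : KO κ → List Bool → ℕ → ℕ) (Y : KO κ → (ℕ → Bool) × (ℕ → ℕ)) : Set (ℕ → Bool) :=
  {x | (∃ p, x = dpt p) ∨ ∃ β, x = px (Y β).1 ∨ x = py (μ β []) (Y β).1}

theorem dpt_mem (μ : KO κ → List Bool → ℕ → ℕ) (Y : KO κ → (ℕ → Bool) × (ℕ → ℕ)) (p : List Bool) :
    dpt p ∈ ZS μ Y := Or.inl ⟨p, rfl⟩

theorem px_mem (μ : KO κ → List Bool → ℕ → ℕ) (Y : KO κ → (ℕ → Bool) × (ℕ → ℕ)) (β : KO κ) :
    px (Y β).1 ∈ ZS μ Y := Or.inr ⟨β, Or.inl rfl⟩

theorem py_mem (μ : KO κ → List Bool → ℕ → ℕ) (Y : KO κ → (ℕ → Bool) × (ℕ → ℕ)) (β : KO κ) :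
    py (μ β []) (Y β).1 ∈ ZS μ Y := Or.inr ⟨β, Or.inr rfl⟩

theorem exists_radius {U : Set (ℕ → Bool)} (hU : IsOpen U) {x : ℕ → Bool} (hx : x ∈ U) :
    ∃ r : ℕ, ∀ y : ℕ → Bool, (∀ t < r, y t = x t) → y ∈ U := by
  rw [isOpen_pi_iff] at hU
  obtain ⟨I, u, hu, hsub⟩ := hU x hx
  refine ⟨I.sup id + 1, fun y hy => hsub fun i hi => ?_⟩
  have h1 : i ≤ I.sup id := Finset.le_sup (f := id) hi
  rw [hy i (by omega)]
  exact (hu i hi).2

/-- The set is concentrated on the set of the eventually constant points. -/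
theorem concentrated {μ : KO κ → List Bool → ℕ → ℕ}
    (hdom : ∀ g : List Bool → ℕ → ℕ, ∃ c, ∀ p n, g p n ≤ μ c p n)
    {Y : KO κ → (ℕ → Bool) × (ℕ → ℕ)} (hY : ∀ β, Stage μ β Y (Y β))
    {U : Set (ℕ → Bool)} (hU : IsOpen U) (hd : ∀ p, dpt p ∈ U) :
    ∃ c, ∀ β, c ≤ β → px (Y β).1 ∈ U ∧ py (μ β []) (Y β).1 ∈ U := by
  choose r hr using fun p => exists_radius hU (hd p)
  obtain ⟨c, hc⟩ := hdom fun p _ => r p
  refine ⟨c, fun β hβ => ?_⟩
  obtain ⟨n, hn⟩ := (trP_infinite hY c {β} (by simpa using hβ) ∅ (by simp)).nonempty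
  obtain ⟨⟨p, -, hp⟩, ⟨q, -, hq⟩⟩ := hn.1 β (Finset.mem_singleton_self β)
  exact ⟨hr p _ fun t ht => hp t (ht.trans_le (hc p n)), hr q _ fun t ht => hq t (ht.trans_le (hc q n))⟩

/-- A closure point. -/
theorem exists_closed (hr : κ.IsRegular) (h0 : ℵ₀ < κ) (G : KO κ → KO κ) (b0 : KO κ) :
    ∃ β, b0 ≤ β ∧ ∀ a < β, G a ≤ β := by
  classical
  have hstep : ∀ b : KO κ, ∃ b', b < b' ∧ ∀ a ≤ b, G a < b' := by
    intro b
    obtain ⟨b', hb'⟩ := exists_above hr h0 (ι := Set.Iic b ⊕ Unit) (by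
        rw [Cardinal.mk_sum, Cardinal.lift_id, Cardinal.lift_id]
        exact Cardinal.add_lt_of_lt h0.le (mk_Iic_KO h0 b)
          (by simpa using Cardinal.one_lt_aleph0.trans h0))
      (Sum.elim (fun a => G a) fun _ => b)
    exact ⟨b', hb' (Sum.inr ()), fun a ha => hb' (Sum.inl ⟨a, ha⟩)⟩
  choose N hN1 hN2 using hstep
  let b : ℕ → KO κ := fun n => Nat.rec b0 (fun _ b => N b) n
  have hb : ∀ n, b (n + 1) = N (b n) := fun n => rfl
  obtain ⟨u, hu⟩ := exists_above hr h0 (ι := ℕ) (by simpa using h0) b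
  have hne : {u | ∀ n, b n ≤ u}.Nonempty := ⟨u, fun n => (hu n).le⟩
  let β := (wellFounded_lt (α := KO κ)).min _ hne
  have hβ : ∀ n, b n ≤ β := (wellFounded_lt (α := KO κ)).min_mem _ hne
  refine ⟨β, hβ 0, fun a ha => ?_⟩
  have h1 : ¬ ∀ n, b n ≤ a := fun h =>
    (wellFounded_lt (α := KO κ)).not_lt_min {u | ∀ n, b n ≤ u} h ha
  push Not at h1
  obtain ⟨n, hn⟩ := h1
  have h2 := hN2 (b n) a hn.le
  rw [← hb n] at h2
  exact h2.le.trans (hβ (n + 1))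

/-- Diagonal `ω`-subcovers. -/
theorem diag_cover (hr : κ.IsRegular) (h0 : ℵ₀ < κ) {μ : KO κ → List Bool → ℕ → ℕ}
    (hdom : ∀ g : List Bool → ℕ → ℕ, ∃ c, ∀ p n, g p n ≤ μ c p n)
    {Y : KO κ → (ℕ → Bool) × (ℕ → ℕ)} (hY : ∀ β, Stage μ β Y (Y β))
    (V : ℕ → ℕ → Set (ℕ → Bool)) (hVo : ∀ n m, IsOpen (V n m)) (hVm : ∀ n, Monotone (V n))
    (hVc : ∀ n, ∀ z ∈ ZS μ Y, ∃ m, z ∈ V n m) :
    ∃ H : ℕ → ℕ, ∀ F : Finset (ℕ → Bool), (∀ z ∈ F, z ∈ ZS μ Y) →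
      {n | ∀ z ∈ F, z ∈ V n (H n)}.Infinite := by
  classical
  have h1 : ∀ p n, ∃ m, dpt p ∈ V n m := fun p n => hVc n _ (dpt_mem μ Y p)
  choose m0 hm0 using h1
  choose r hr' using fun p n => exists_radius (hVo n (m0 p n)) (hm0 p n)
  obtain ⟨c1, hc1⟩ := hdom r
  let H0 : ℕ → ℕ := fun n => sSup ((fun p => m0 p n) '' {p : List Bool | p.length ≤ bd (μ c1) n})
  have hH0 : ∀ n p, p.length ≤ bd (μ c1) n → m0 p n ≤ H0 n := by
    intro n p hp
    apply le_csSup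
    · exact ((List.finite_length_le Bool _).image _).bddAbove
    · exact ⟨p, hp, rfl⟩
  have h2 : ∀ z : ℕ → Bool, ∃ f : ℕ → ℕ, z ∈ ZS μ Y → ∀ n, z ∈ V n (f n) := by
    intro z
    by_cases hz : z ∈ ZS μ Y
    · choose f hf using fun n => hVc n z hz
      exact ⟨f, fun _ => hf⟩
    · exact ⟨0, fun h => absurd h hz⟩
  choose f hf using h2
  have h3 : ∀ z : ℕ → Bool, ∃ c, ∀ n, f z n ≤ μ c [] n := by
    intro z
    obtain ⟨c, hc⟩ := hdom fun _ n => f z n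
    exact ⟨c, fun n => hc [] n⟩
  choose cz hcz using h3
  obtain ⟨b0, hb0⟩ := exists_above hr h0 (ι := List Bool ⊕ Unit)
    ((Cardinal.mk_le_aleph0).trans_lt h0) (Sum.elim (fun p => cz (dpt p)) fun _ => c1)
  obtain ⟨β, hβ0, hβ⟩ := exists_closed hr h0
    (fun a => max (cz (px (Y a).1)) (cz (py (μ a []) (Y a).1))) b0
  have hc1β : c1 ≤ β := (hb0 (Sum.inr ())).le.trans hβ0
  refine ⟨fun n => max (H0 n) ((Y β).2 n), fun F hF => ?_⟩
  -- the generic members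
  let Q : (ℕ → Bool) → KO κ → Prop := fun z a => β ≤ a ∧ (z = px (Y a).1 ∨ z = py (μ a []) (Y a).1)
  have h4 : ∀ z : ℕ → Bool, ∃ a, (∃ a', Q z a') → Q z a := by
    intro z
    by_cases h : ∃ a', Q z a'
    · obtain ⟨a, ha⟩ := h
      exact ⟨a, fun _ => ha⟩
    · exact ⟨β, fun h' => absurd h' h⟩
  choose az haz using h4
  let F1 := F.filter fun z => ∃ a, Q z a
  let F2 := F.filter fun z => ¬ ∃ a, Q z a
  have hF2 : ∀ z ∈ F2, cz z ≤ β := by
    intro z hz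
    obtain ⟨hzF, hzQ⟩ := Finset.mem_filter.1 hz
    rcases hF z hzF with ⟨p, rfl⟩ | ⟨a, ha⟩
    · exact (hb0 (Sum.inl p)).le.trans hβ0
    · have h5 : a < β := by
        by_contra hcon
        exact hzQ ⟨a, not_lt.1 hcon, ha⟩
      have h6 := hβ a h5
      rcases ha with rfl | rfl
      · exact (le_max_left _ _).trans h6
      · exact (le_max_right _ _).trans h6
  have hinf := trP_infinite hY c1 (F1.image az) (by
    intro a ha
    obtain ⟨z, hz, rfl⟩ := Finset.mem_image.1 ha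
    exact hc1β.trans (haz z (Finset.mem_filter.1 hz).2).1) (F2.image fun z => (β, cz z)) (by
    intro p hp
    obtain ⟨z, hz, rfl⟩ := Finset.mem_image.1 hp
    exact ⟨hc1β, hF2 z hz⟩)
  refine hinf.mono ?_
  rintro n ⟨hn1, hn2⟩ z hz
  by_cases hzQ : ∃ a, Q z a
  · have hz1 : z ∈ F1 := Finset.mem_filter.2 ⟨hz, hzQ⟩
    have h5 := hn1 (az z) (Finset.mem_image_of_mem _ hz1)
    have h6 : z ∈ NearP (μ c1) n := by
      rcases (haz z hzQ).2 with h | h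
      · rw [h]; exact h5.1
      · rw [h]; exact h5.2
    obtain ⟨p, hp1, hp2⟩ := h6
    have h7 := hr' p n z fun t ht => hp2 t (ht.trans_le (hc1 p n))
    exact hVm n ((hH0 n p hp1).trans (le_max_left _ _)) h7
  · have hz2 : z ∈ F2 := Finset.mem_filter.2 ⟨hz, hzQ⟩
    have h5 := hn2 (β, cz z) (Finset.mem_image_of_mem (fun z => (β, cz z)) hz2)
    exact hVm n (((hcz z n).trans h5).trans (le_max_right _ _)) (hf z (hF z hz) n)

/-- Any two members have common ones. -/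
theorem common_ones {μ : KO κ → List Bool → ℕ → ℕ}
    {Y : KO κ → (ℕ → Bool) × (ℕ → ℕ)} (hY : ∀ β, Stage μ β Y (Y β)) {x y : ℕ → Bool}
    (hx : x ∈ ZS μ Y) (hy : y ∈ ZS μ Y) (n : ℕ) :
    ∃ m, x (Nat.pair n m) = true ∧ y (Nat.pair n m) = true := by
  have hd : ∀ p : List Bool, ∀ m, p.length ≤ m → dpt p (Nat.pair n m) = true := by
    intro p m hm
    have h1 : m ≤ Nat.pair n m := Nat.right_le_pair n m
    have h2 : p.length ≤ Nat.pair n m := hm.trans h1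
    simp [dpt, List.getD_eq_getElem?_getD, List.getElem?_eq_none h2]
  have hcol : ∀ z ∈ ZS μ Y, ∀ k, ∃ m, k ≤ m ∧ z (Nat.pair n m) = true := by
    rintro z (⟨p, rfl⟩ | ⟨β, rfl | rfl⟩) k
    · exact ⟨max k p.length, le_max_left _ _, hd p _ (le_max_right _ _)⟩
    · obtain ⟨m, h1, h2, -⟩ := (hY β).common n k
      exact ⟨m, h1, h2⟩
    · obtain ⟨m, h1, -, h2⟩ := (hY β).common n k
      exact ⟨m, h1, h2⟩
  have hdz : ∀ (p : List Bool), ∀ z ∈ ZS μ Y,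
      ∃ m, dpt p (Nat.pair n m) = true ∧ z (Nat.pair n m) = true := by
    intro p z hz
    obtain ⟨m, h1, h2⟩ := hcol z hz p.length
    exact ⟨m, hd p m h1, h2⟩
  have hlt : ∀ a b : KO κ, a < b → ∀ z, (z = px (Y a).1 ∨ z = py (μ a []) (Y a).1) →
      ∀ w, (w = px (Y b).1 ∨ w = py (μ b []) (Y b).1) →
      ∃ m, z (Nat.pair n m) = true ∧ w (Nat.pair n m) = true := by
    intro a b hab z hz w hw
    have hzc : ∀ k, ∃ m, k ≤ m ∧ z (Nat.pair n m) = true := hcol z (Or.inr ⟨a, hz⟩)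
    rcases hz with rfl | rfl <;> rcases hw with rfl | rfl
    · obtain ⟨m, h1, h2⟩ := (hY b).xx a hab n hzc
      exact ⟨m, h2, h1⟩
    · obtain ⟨m, h1, h2⟩ := (hY b).yx a hab n hzc
      exact ⟨m, h2, h1⟩
    · obtain ⟨m, h1, h2⟩ := (hY b).xy a hab n hzc
      exact ⟨m, h2, h1⟩
    · obtain ⟨m, h1, h2⟩ := (hY b).yy a hab n hzc
      exact ⟨m, h2, h1⟩
  rcases hx with ⟨p, rfl⟩ | ⟨a, ha⟩
  · exact hdz p y hy
  · rcases hy with ⟨p, rfl⟩ | ⟨b, hb⟩
    · obtain ⟨m, h1, h2⟩ := hdz p x (Or.inr ⟨a, ha⟩)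
      exact ⟨m, h2, h1⟩
    · rcases lt_trichotomy a b with h | rfl | h
      · exact hlt a b h x ha y hb
      · obtain ⟨m, -, h1, h2⟩ := (hY a).common n 0
        rcases ha with rfl | rfl <;> rcases hb with rfl | rfl
        · exact ⟨m, h1, h1⟩
        · exact ⟨m, h1, h2⟩
        · exact ⟨m, h2, h1⟩
        · exact ⟨m, h2, h2⟩
      · obtain ⟨m, h1, h2⟩ := hlt b a h y hb x ha
        exact ⟨m, h2, h1⟩

/-- The pairs of points dominate. -/
theorem pair_large (h : ℕ → ℕ) (z : ℕ → Bool) (n m : ℕ) (h1 : px z (Nat.pair n m) = true)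
    (h2 : py h z (Nat.pair n m) = true) : h n ≤ m := by
  by_contra hcon
  have h3 : z (2 * Nat.pair n m) = true := h1
  simp only [py, h3, Nat.unpair_pair] at h2
  have h4 : m < h n := not_le.1 hcon
  simp [h4] at h2

end Pool.Agent.TH565.Grp
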